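import Pool.Agent.Helper8.TB.St

/-!
# MP_26ac92_gt, project TB: module Frame (`StFrame`)

Every unit vector of `W (m + 1)` has a frame: an isometric embedding of `W m` onto its orthogonal complement.
-/

set_option autoImplicit false

namespace Pool.Agent.Helper32.TB

open Pool.Helper8.TB MeasureTheory

theorem hFrame : StFrame := by
  intro m u hu
  have hu0 : u ≠ 0 := by
    intro h
    rw [h, norm_zero] at hu
    exact zero_ne_one hu
  have hfact : Fact (Module.finrank ℝ (W (m + 1)) = m + 1) := ⟨by simp⟩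
  have hfin : Module.finrank ℝ (ℝ ∙ u)ᗮ = m := Submodule.finrank_orthogonal_span_singleton hu0
  let b : OrthonormalBasis (Fin m) ℝ (ℝ ∙ u)ᗮ :=
    (stdOrthonormalBasis ℝ (ℝ ∙ u)ᗮ).reindex (finCongr hfin)
  let e : W m ≃ₗᵢ[ℝ] (ℝ ∙ u)ᗮ := b.repr.symm
  refine ⟨(ℝ ∙ u)ᗮ.subtypeₗᵢ.comp e.toLinearIsometry, hu, ?_⟩
  intro y
  have h : ((e y : (ℝ ∙ u)ᗮ) : W (m + 1)) ∈ (ℝ ∙ u)ᗮ := (e y).2
  rw [Submodule.mem_orthogonal_singleton_iff_inner_left] at h
  exact h

end Pool.Agent.Helper32.TB
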